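import Mathlib
import Pool.Agent.J6H55.FM.Top
import Pool.Agent.J6H55.FM.Dsc
import Pool.Agent.J6H98.FM.Par2
import Pool.Agent.J6H85.FM.Chv
import Pool.Agent.J6H76.FM.Clo
import Pool.Agent.J6H34.FM.Ell
import Pool.Agent.J6H28.FM.Par
import Pool.Agent.J6H14.FM.Noe
import Pool.Agent.J6H20.FM.No2
import Pool.Agent.J6H74.FM.Cst
import Pool.Agent.J6H35.FM.Den
import Pool.Agent.J6H11.FM.One

/-!
# The locus of the hyperbolic fibres, for families of varieties which carry maps with many preperiodic points

A projective family over the complex affine space with the coordinates `β` is a closed subset `X` of
`A ^ β × P ^ M`, given by a set `FF` of polynomials in the coordinates `b` of `A ^ β` and the homogeneous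
coordinates `z` of `P ^ M`, homogeneous in `z` (`IsRel`). The fibre `X_c` over `c` is the set of the `z` with
`F(c, z) = 0` for all `F` in `FF` (`InFibre`). Fibres may be empty, singular or reducible, their dimensions may vary:
so `X` may be any projective family over a closed subset of an affine space. The closed subvarieties `V` of `X_c` are
given by their function fields `E` and generic points `z` (homogeneous coordinates; `coords ℂ z = ⊤`: the
ratios of the coordinates generate `E`).

`Carries B E` (`Pool/Agent/J6H55/CC/Defs.lean`): there are finitely many rational maps `p j / q j` of the
projective line over `E` (families of rational maps over an open subset of `V`) of degrees `d j ≥ 2`, the `j`-th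
with at least `B (d j)` preperiodic points in `P^1(E)`, whose joint moduli map `V ⇢ ∏ M_{d j}` is generically
finite. `FibresCarry B FF`: all closed subvarieties of dimension at least two of all fibres `X_c` carry such maps.
(The maps on the different subvarieties and fibres are not related. Nothing is assumed about the curves in the
fibres.)

Theorem. There is a function `B` such that for each projective family `X` with `FibresCarry B FF` there are a
set `N` of polynomials on the base and numbers `A`, `A'`, such that for all `c`:

1. (`SpecialSets`, `Pool/Agent/Q103/SF/Defs2.lean`) For each closed subvariety `V` of `X_c`: the closed curves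
   of geometric genus `≤ 1` in `V` are finite in number. The Zariski closure of every nonconstant entire curve, of
   every nonconstant meromorphic image of some `ℂ ^ g`, and of every holomorphic image of the punctured disc with an
   essential singularity is one of them, and each of them is the closure of an entire curve and the image of an
   elliptic curve. All other closed subvarieties of positive dimension of `V` are of general type.

2. `X_c` contains at most `A'` closed curves of genus `≤ 1` (`lowIn`).

3. The degree of every nonconstant map from a smooth projective curve of genus `g` to `X_c` is at most
   `A (2 g - 2)`, or its image is a curve of genus `≤ 1` and of degree at most `A` (`LowDeg`).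

4. The following are equivalent: some polynomial in `N` does not vanish at `c`; the degree of every nonconstant map
   from a smooth projective curve of genus `g` to `X_c` is at most `A (2 g - 2)`; all closed subvarieties of `X_c`
   (equivalently: all irreducible components) are Kobayashi hyperbolic; there is no nonconstant entire curve in `X_c`;
   every holomorphic map from the punctured disc to (a component of) `X_c` extends to the disc; every meromorphic
   map from some `ℂ ^ g` to `X_c` is constant; every map from an elliptic curve to `X_c` is constant; all closed
   subvarieties of `X_c` are algebraically hyperbolic; all closed subvarieties of positive dimension of `X_c` are of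
   general type; the maps from a pointed curve to (a component of) `X_c` with a given value are finite in number;
   there are no curves of genus `≤ 1` in `X_c`.

So the fibres which are hyperbolic, in any of these senses, form a Zariski open subset of the base, and the
constants `A`, `A'` are the same for all fibres, although the hypothesis is only on the single fibres. (In general
the set of the Kobayashi hyperbolic fibres is only known to be open in the classical topology, by Brody, and the
sets of the algebraically hyperbolic fibres and of the groupless fibres to be complements of countable unions of
closed subsets.)

The case of one variety (a base which is one point) was our earlier result `PreperiodicHyperbolic`, which is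
replaced by this one.

Proof. All complex fibres are in the class, so all geometric fibres are: the family is defined over a countable
field `k`, and the geometric generic fibre of a subfamily is isomorphic, as a scheme over `k`, to a complex fibre
(`Pool/Agent/J6H55/FM/Iso.lean`). Let `V` be a closed subvariety of `X` with image `T` in the base, of relative
dimension at least two. After a finite base change `T' → T` the variety carries maps whose joint moduli map is
generically finite over `T'`; the theorem for the total space (`Pool/Agent/J6H55/SB/Main.lean`, joint moduli
fibration) bounds the degrees of the curves in the fibres by their genus, off a proper closed subset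
(`Rel.lean`). If the relative dimension is at most one, then the curves in the fibres have bounded degree
and number, off a proper closed subset. So 2. and 3. follow by noetherian induction. A curve of genus `≤ 1` and bounded
degree is the image of an elliptic curve `y² = x³ + a x + b` by polynomials in `x`, `y` of bounded degree. By the
theorem of Chevalley the set `S` of the `c` such that `X_c` contains such curves has the property: if `S ∩ T` is
Zariski dense in the closed subvariety `T`, then it contains a nonempty Zariski open subset of `T`. By
the theorem of Brody, for families, `S` is closed in the classical topology. So it is Zariski closed.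
-/

set_option autoImplicit false
set_option linter.overlappingInstances false

namespace Pool.Agent.Results.MP_6f117a_ag.HyperbolicLocus

open FF
open Pool.Agent.W603.LV (canDeg)
open Pool.Agent.W603.PV (pht)
open Pool.Agent.Q271.RC (Nonconst)
open Pool.Agent.Q103.SF
open Pool.Agent.J6H55.FM

/-- The hyperbolic fibres form a Zariski open set, and the bounds are uniform, for projective families of
varieties whose subvarieties of dimension at least two carry maps with many preperiodic points and generically
finite joint moduli map. -/
theorem result : ∃ B : ℕ → ℕ, ∀ (β : Type) [Finite β] (M : ℕ)
    (FF : Set (MvPolynomial (β ⊕ Fin (M + 1)) ℂ)), (∀ F ∈ FF, IsRel F) → FibresCarry B FF →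
    ∃ (N : Set (MvPolynomial β ℂ)) (A A' : ℕ), ∀ c : β → ℂ,
      AllSub FF c (fun _ _ _ x => SpecialSets x) ∧ (lowIn FF c).encard ≤ A' ∧
      (∀ (E : Type) [Field E] [Algebra ℂ E] [IsFF ℂ E] (v : Fin (M + 1) → E), Nonconst v →
        InFibre FF c v → pht ℂ v ≤ A * canDeg ℂ E ∨ LowDeg A (van v)) ∧
      List.TFAE [∃ G ∈ N, MvPolynomial.eval c G ≠ 0,
        ∀ (E : Type) [Field E] [Algebra ℂ E] [IsFF ℂ E] (v : Fin (M + 1) → E), Nonconst v →
          InFibre FF c v → pht ℂ v ≤ A * canDeg ℂ E,
        AllSub FF c (fun _ _ _ x => KobayashiHyp x),
        AllSub FF c (fun _ _ _ x => BrodyHyp x),
        AllSub FF c (fun _ _ _ x => PicardHyp x),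
        AllSub FF c (fun _ _ _ x => NoMero x),
        AllSub FF c (fun _ _ _ x => NoElliptic x),
        AllSub FF c (fun _ _ _ x => AlgHyp x),
        AllSub FF c (fun _ _ _ x => AllGeneral x),
        AllSub FF c (fun _ _ _ x => GeomHyp x),
        lowIn FF c = ∅] :=
  Pool.Agent.J6H55.FM.main Pool.Agent.J6H35.FM.den
    (Pool.Agent.J6H98.FMG.gen Pool.Agent.J6H85.FM.chv) Pool.Agent.J6H76.FM.clo Pool.Agent.J6H34.FM.ell
    Pool.Agent.J6H28.FM.par Pool.Agent.J6H11.FM.One.one Pool.Agent.J6H11.FM.cnt Pool.Agent.J6H14.FM.noe
    Pool.Agent.J6H20.FM.no2 Pool.Agent.J6H74.FMCst.cst_main Pool.Agent.J6H55.FM.dsc2

end Pool.Agent.Results.MP_6f117a_ag.HyperbolicLocus
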