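import Pool.Agent.J6H92.SU.Gt

/-!
# Algebraic hyperbolicity for maps with short sums of units as coordinates

`X = {F = 0 for all F ∈ Φ}` is any projective variety (any closed subset of a projective space `P^n`)
over an algebraically closed field `k` of characteristic `0`. We consider the morphisms `f : C → X`
from smooth projective curves with homogeneous coordinates `f = ∑ j < r, u j • V j` (`ShortSum`),
where the `u j` are `S`-units, for a finite subset `S` of `C`, and the `V j` are vectors of
constants (or of functions of controlled degree).

Theorem. For these morphisms the bound in the definition of algebraic hyperbolicity, with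
`2 g - 2 + |S|` in place of `2 g - 2`, holds as soon as `X` contains no rational curves: in
particular if `X` is bounded (the degrees of the morphisms from each curve are bounded), groupless,
algebraically hyperbolic or hyperbolic in the sense of the question. More precisely:

(1) the bound is uniform: it holds with a constant `A` that depends only on `n`, `r` and the degrees of
the equations, outside of all closed subsets `G = 0` that contain the rational curves in `X` of degree at
most `B`, for a constant `B` that depends only on the same numbers;

(2) it is sharp: for all closed subsets `G = 0` the linear bound outside of `G = 0`, for all `r`, is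
equivalent to the boundedness of the degrees for each curve, to this boundedness for the projective line
and `S = {0, ∞}`, and to the condition that all rational curves in `X` are contained in `G = 0`;

(3) if the degrees of all morphisms from each curve to `X`, outside of `G = 0`, are bounded, or if all
closed subvarieties of positive dimension of `X` which are not contained in `G = 0` are of general
type, then there are such linear bounds outside of `G = 0`; for `G = 1` the assumptions are the
properties (2) and (4) of the question, and the conclusion is the restricted form of the
property (1);

(4) if `X` is irreducible then it is not uniruled if and only if for all `r` there is such a linear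
bound outside of a proper closed subset (for instance if `X` is of general type).

`canDeg k L = 2 g - 2` for the curve with function field `L`, `pht k f` is the degree of the morphism
`f`, `hgt k h` the degree of the function `h`, and the elements of `Place k L` are the points of the
curve.

Proof. Let `F ∈ Φ`. Then `F (∑ j, U j • V j)` is a polynomial in the `U j` which vanishes at `u`; the
theorem of Brownawell-Masser and Voloch on vanishing sums of units (in the form of
`Pool/Agent/W603/LV`) shows that its monomials are divided into blocks with sum zero such that the
quotients of the values of monomials in a block have height at most a constant times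
`2 g - 2 + |S|`. If a weight `l`, not constant, is orthogonal to all differences of exponents with
this bound, then `T ↦ ∑ j, T ^ (l j) u j • V j` is a curve in `X` through `f`. If it is constant then
`f` is proportional to a sum with fewer terms. If there is no such weight then the heights of all the
`u i / u j` are bounded, and so is that of `f`. The curve in `X` is defined over `k (C)`, with
exponents from a finite set that depends only on `n`, `r` and the degrees; it can be
specialised at a point of `C` (Nullstellensatz).
-/

set_option autoImplicit false

namespace Pool.Agent.Results.MP_6f117a_ag.ShortUnitSums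

open FF MvPolynomial Pool.Agent.W603.LV
open Pool.Agent.W603.PV (pht)
open Pool.Agent.H533R3.SL (Uniruled)
open Pool.Agent.J6H92.SU (ShortSum LinearBound BoundOn RatCurve zeroInf BoundedOff GeneralOff)

/-- Morphisms from curves whose coordinates are short sums of units: linear bounds for the degree, if
and only if there are no rational curves. -/
theorem result :
    (∀ n d r : ℕ, ∃ A B : ℕ, ∀ (k : Type) [Field k] [IsAlgClosed k] [CharZero k]
      (Φ : Set (MvPolynomial (Fin (n + 1)) k)), (∀ F ∈ Φ, ∃ e, e ≤ d ∧ F.IsHomogeneous e) →
      ∀ G : MvPolynomial (Fin (n + 1)) k,
        (∀ p : Fin (n + 1) → Polynomial k, (∀ i, (p i).natDegree ≤ B) → RatCurve Φ p →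
          aeval p G = 0) → LinearBound Φ G r A) ∧
    ∀ (k : Type) [Field k] [IsAlgClosed k] [CharZero k] (n d : ℕ)
      (Φ : Set (MvPolynomial (Fin (n + 1)) k)), (∀ F ∈ Φ, ∃ e, e ≤ d ∧ F.IsHomogeneous e) →
      (∀ G : MvPolynomial (Fin (n + 1)) k,
        [∀ r, ∃ A, LinearBound Φ G r A,
          ∀ r (L : Type) [Field L] [Algebra k L] [IsFF k L] (S : Finset (Place k L)),
            ∃ B, BoundOn Φ G r L S B,
          ∀ r, ∃ B, BoundOn Φ G r (RatFunc k) (zeroInf k) B,
          ∀ p, RatCurve Φ p → aeval p G = 0].TFAE) ∧
      (∀ G : MvPolynomial (Fin (n + 1)) k, (∃ e, G.IsHomogeneous e) →
        BoundedOff Φ G ∨ GeneralOff Φ G → ∀ r, ∃ A, LinearBound Φ G r A) ∧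
      ((Ideal.span Φ).IsPrime →
        (¬ Uniruled (Ideal.span Φ) ↔ ∀ r, ∃ G : MvPolynomial (Fin (n + 1)) k,
          (∃ e, G.IsHomogeneous e) ∧ G ∉ Ideal.span Φ ∧ ∃ A, LinearBound Φ G r A)) := by
  refine ⟨Pool.Agent.J6H92.SU.uniform, ?_⟩
  intro k _ _ _ n d Φ hΦ
  exact ⟨Pool.Agent.J6H92.SU.mod_tfae hΦ, fun G hG h => Pool.Agent.J6H92.SU.linear_of hΦ hG h,
    Pool.Agent.J6H92.SU.uniruled_iff hΦ⟩

end Pool.Agent.Results.MP_6f117a_ag.ShortUnitSums
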